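import Pool.Agent.N4.Abg.Model

/-! The homology of the Allison–Benkart–Gao Lie algebra of the free alternative algebra on a
three-dimensional vector space has a trivial or an adjoint component in some homological degree `k`
with `2 ≤ k ≤ 10`. -/

namespace Pool.Agent.Results.MP_894cc0_al.ShangDisproof

open Pool.Agent.N4.Abg

universe u

/-- For every field `K` of characteristic zero: there are a three-dimensional vector space `V`, a
free non-unital alternative algebra `A = Alt(V)` on it and a Lie algebra `L = ABG(A)`; and for all
such `V`, `A`, `L` there is `2 ≤ k ≤ 10` such that the `𝔰𝔩₃`-module `H_k(L, K)` has a direct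
summand isomorphic to the trivial module or to the adjoint module. -/
theorem result (K : Type u) [Field K] [CharZero K] :
    Nonempty (FreeABG K) ∧ ∀ M : FreeABG K, ∃ k : ℕ, 2 ≤ k ∧ k ≤ 10 ∧
      (HasTrivial M.abg k ∨ HasAdjoint M.abg k) :=
  ⟨exists_model K, fun M => main_model M.dim M.i M.free M.e M.abg⟩

end Pool.Agent.Results.MP_894cc0_al.ShangDisproof
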